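import Pool.Agent.K9h27.RB.Rows
import Pool.Agent.K9h27.LR.Low

/-!
# The number of matrices of logarithms near a given matrix: conclusion
-/

set_option autoImplicit false

namespace Pool.Agent.K9h27.RB

open Module Finset
open Pool.Agent.H301R2.SSE (QB mem_QB Lt)
open Pool.Agent.W254.HP (opt_indep)

/-- the matrix `A + B * w`, entry by entry -/
def mat {n m N : ℕ} (A B : Fin n → Fin m → ℂ) (w : Fin N → ℂ) (f : Fin n → Fin m → Fin N) :
    Fin n → Fin m → ℂ := fun i j => A i j + B i j * w (f i j)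

/-- the constant -/
def cst (n m : ℕ) : ℕ :=
  2 ^ (m * 2 ^ n + m) * (n ^ n * (((n + 1) ^ 2 * n + 1) ^ (n + 1)) ^ n) ^ m

theorem rank_eq {n m N : ℕ} (A B : Fin n → Fin m → ℂ) (w : Fin N → ℂ)
    (f : Fin n → Fin m → Fin N) :
    (Matrix.of (mat A B w f)).rank = finrank ℂ (csp A B w f) := by
  rw [Matrix.rank_eq_finrank_span_cols]
  rfl

theorem up_rank {n m N : ℕ} (hn : 0 < n) (hm : 0 < m) (w : Fin N → ℂ)
    (hw : LinearIndependent QB (fun o : Option (Fin N) => o.elim 1 w)) (hL : ∀ i, w i ∈ Lt)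
    (r : ℕ) (A B : Fin n → Fin m → ℂ) (hB : ∀ i j, B i j ≠ 0) :
    {f | (Matrix.of (mat A B w f)).rank ≤ r}.ncard ≤ cst n m * N ^ (r * max n m) := by
  classical
  rcases Nat.eq_zero_or_pos N with h0 | hN
  · subst h0
    have h1 : {f : Fin n → Fin m → Fin 0 | (Matrix.of (mat A B w f)).rank ≤ r} = ∅ := by
      ext f
      exact (f ⟨0, hn⟩ ⟨0, hm⟩).elim0
    rw [h1, Set.ncard_empty]
    exact Nat.zero_le _
  · rw [Set.ncard_eq_toFinset_card']
    have h1 := card_rank_le (X := Fin n) (Y := Fin m) (ι := Fin N) (by rwa [Fintype.card_fin]) A B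
      hB w hw hL r {f : Fin n → Fin m → Fin N | (Matrix.of (mat A B w f)).rank ≤ r}.toFinset (by
        intro f hf
        have h2 := Set.mem_toFinset.1 hf
        rw [← rank_eq]
        exact h2)
    rw [Fintype.card_fin, Fintype.card_fin, Fintype.card_fin] at h1
    exact h1

theorem up_rows {n m N r : ℕ} (hr1 : 1 ≤ r) (hn : r < n) (hm : n < m) (w : Fin N → ℂ)
    (hw : LinearIndependent QB (fun o : Option (Fin N) => o.elim 1 w)) (hL : ∀ i, w i ∈ Lt)
    (A : Fin n → Fin m → ℂ) :
    {f | (Matrix.of (mat A (fun _ _ => 1) w f)).rank ≤ r ∧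
      r < (Set.range (mat A (fun _ _ => 1) w f) \ {0}).ncard}.ncard ≤
      cst n m * N ^ ((r - 1) * (m - 1) + n) := by
  classical
  rcases Nat.eq_zero_or_pos N with h0 | hN
  · subst h0
    have h1 : {f : Fin n → Fin m → Fin 0 | (Matrix.of (mat A (fun _ _ => 1) w f)).rank ≤ r ∧
        r < (Set.range (mat A (fun _ _ => 1) w f) \ {0}).ncard} = ∅ := by
      ext f
      exact (f ⟨0, by omega⟩ ⟨0, by omega⟩).elim0
    rw [h1, Set.ncard_empty]
    exact Nat.zero_le _
  · rw [Set.ncard_eq_toFinset_card']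
    have h1 := card_rank_rows (X := Fin n) (Y := Fin m) (ι := Fin N) (by rwa [Fintype.card_fin]) A
      w hw hL r hr1 (by rw [Fintype.card_fin]; omega)
      (by rw [Fintype.card_fin, Fintype.card_fin]; exact hm)
      {f : Fin n → Fin m → Fin N | (Matrix.of (mat A (fun _ _ => 1) w f)).rank ≤ r ∧
        r < (Set.range (mat A (fun _ _ => 1) w f) \ {0}).ncard}.toFinset (by
        intro f hf
        have h2 := Set.mem_toFinset.1 hf
        refine ⟨?_, h2.2⟩
        rw [← rank_eq]
        exact h2.1)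
    rw [Fintype.card_fin, Fintype.card_fin, Fintype.card_fin] at h1
    exact h1

theorem mat_zero {n m N : ℕ} (w : Fin N → ℂ) (f : Fin n → Fin m → Fin N) :
    mat (fun _ _ => 0) (fun _ _ => 1) w f = fun i j => w (f i j) := by
  funext i j
  simp [mat]

theorem low_rank {n m N r : ℕ} (w : Fin N → ℂ) (hr1 : 1 ≤ r) (hn : r ≤ n) (hm : r ≤ m) :
    N ^ (r * max n m) ≤
      {f : Fin n → Fin m → Fin N |
        (Matrix.of (mat (fun _ _ => 0) (fun _ _ => 1) w f)).rank ≤ r}.ncard := by
  have h := Pool.Agent.K9h27.LR.low_rank w hr1 hn hm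
  simpa only [mat_zero] using h

theorem low_rows {n m N r : ℕ} (w : Fin N → ℂ) (hinj : Function.Injective w)
    (h0 : ∀ a, w a ≠ 0) (hr1 : 1 ≤ r) (hn : r < n) (hm : 0 < m) :
    N.descFactorial ((r - 1) * (m - 1) + n) ≤
      {f : Fin n → Fin m → Fin N |
        (Matrix.of (mat (fun _ _ => 0) (fun _ _ => 1) w f)).rank ≤ r ∧
        r < (Set.range (mat (fun _ _ => 0) (fun _ _ => 1) w f) \ {0}).ncard}.ncard := by
  have h := Pool.Agent.K9h27.LR.low_rows w hr1 hn hm
  have e : ∀ f : Fin n → Fin m → Fin N,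
      (Set.range (mat (fun _ _ => 0) (fun _ _ => 1) w f) \ {0}).ncard = (Set.range f).ncard := by
    intro f
    have h1 : Set.range (mat (fun _ _ => 0) (fun _ _ => 1) w f) \ {0} =
        (fun (v : Fin m → Fin N) j => w (v j)) '' Set.range f := by
      rw [mat_zero]
      ext x
      constructor
      · rintro ⟨⟨i, rfl⟩, -⟩
        exact ⟨f i, ⟨i, rfl⟩, rfl⟩
      · rintro ⟨_, ⟨i, rfl⟩, rfl⟩
        refine ⟨⟨i, rfl⟩, ?_⟩
        intro hz
        exact h0 _ (congrFun hz ⟨0, hm⟩)
    rw [h1, Set.ncard_image_of_injective]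
    intro v v' hv
    funext j
    exact hinj (congrFun hv j)
  simp only [e]
  simpa only [mat_zero] using h

/-- logarithms of primes plus algebraic numbers -/
theorem primes_indep {N : ℕ} (p : Fin N → ℕ) (hp : ∀ i, (p i).Prime)
    (hinj : Function.Injective p) (α : Fin N → ℂ) (hα : ∀ i, IsAlgebraic ℚ (α i)) :
    (∀ i, ((Real.log (p i) : ℝ) : ℂ) + α i ∈ Lt) ∧
      LinearIndependent QB (fun o : Option (Fin N) =>
        o.elim (1 : ℂ) (fun i => ((Real.log (p i) : ℝ) : ℂ) + α i)) := by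
  classical
  refine ⟨(Pool.Agent.K9h27.LR.primes_indep p hp hinj α hα).1, ?_⟩
  have halg : ∀ i, IsAlgebraic ℚ (Complex.exp ((Real.log (p i) : ℝ) : ℂ)) := by
    intro i
    rw [← Complex.ofReal_exp, Real.exp_log (by exact_mod_cast (hp i).pos)]
    exact_mod_cast isAlgebraic_algebraMap (R := ℚ) (A := ℂ) ((p i : ℕ) : ℚ)
  have hQ : LinearIndependent ℚ (fun i => ((Real.log (p i) : ℝ) : ℂ)) := by
    have h1 := Pool.Agent.W254.HP.log_primes_indep
    exact h1.comp (fun i => (⟨p i, hp i⟩ : Nat.Primes)) (fun a b h => hinj (congrArg Subtype.val h))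
  have h1 := opt_indep (fun i => ((Real.log (p i) : ℝ) : ℂ)) halg hQ
  rw [Fintype.linearIndependent_iff] at h1 ⊢
  intro g hg
  have h2 := h1 (fun o => o.elim (g none + ∑ i, g (some i) * ⟨α i, mem_QB.2 (hα i)⟩)
    (fun i => g (some i))) (by
      rw [Fintype.sum_option] at hg ⊢
      rw [← hg]
      simp only [Option.elim_none, Option.elim_some]
      rw [add_smul, add_assoc, Finset.sum_smul, ← sum_add_distrib]
      congr 1
      refine sum_congr rfl fun i _ => ?_
      rw [Algebra.smul_def, Algebra.smul_def, Algebra.smul_def, map_mul, mul_one, mul_add,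
        add_comm]
      rfl)
  have h3 : ∀ i, g (some i) = 0 := fun i => h2 (some i)
  intro o
  cases o with
  | none =>
    have h4 := h2 none
    simp only [Option.elim_none, h3, zero_mul, sum_const_zero, add_zero] at h4
    exact h4
  | some i => exact h3 i

end Pool.Agent.K9h27.RB
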