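import Pool.Agent.K9h27.LR.Sing

/-!
# The number of columns of logarithms in a subspace
-/

set_option autoImplicit false

namespace Pool.Agent.K9h27.RB

open Module Finset
open Pool.Agent.H301R2.SSE (QB mem_QB Lt)
open Pool.Agent.K9h27.LR (few_solutions)

/-- the solutions of an inhomogeneous relation with given nonzero coefficients -/
theorem few_affine {ι : Type} [DecidableEq ι] (w : ι → ℂ)
    (hw : LinearIndependent QB (fun o : Option ι => o.elim 1 w)) (hL : ∀ i, w i ∈ Lt)
    {α : Type*} [Fintype α] [DecidableEq α] (c : ℂ) (lam : α → ℂ) (hlam : ∀ i, lam i ≠ 0)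
    (R : Finset (α → ι)) (hR : ∀ v ∈ R, Function.Injective v ∧ c + ∑ i, lam i * w (v i) = 0)
    {n : ℕ} (hα : Fintype.card α ≤ n) :
    R.card ≤ ((n + 1) ^ 2 * n + 1) ^ (n + 1) := by
  classical
  by_cases hc : c = 0
  · have h1 := few_solutions w (hw.comp some (Option.some_injective _)) hL lam hlam R
      (fun v hv => ⟨(hR v hv).1, by
        have := (hR v hv).2
        rwa [hc, zero_add] at this⟩)
    refine h1.trans ?_
    calc (Fintype.card α ^ 2 * (Fintype.card α - 1)) ^ Fintype.card α ≤
          ((n + 1) ^ 2 * n + 1) ^ Fintype.card α := by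
          refine Nat.pow_le_pow_left ?_ _
          calc Fintype.card α ^ 2 * (Fintype.card α - 1) ≤ (n + 1) ^ 2 * n :=
                Nat.mul_le_mul (Nat.pow_le_pow_left (by omega) 2) (by omega)
            _ ≤ _ := Nat.le_succ _
      _ ≤ _ := Nat.pow_le_pow_right (by omega) (by omega)
  · have hinj : Function.Injective (fun v : α → ι => (Option.map v : Option α → Option ι)) := by
      intro v v' h
      funext i
      exact Option.some_injective _ (congrFun h (some i))
    have h1 := few_solutions (fun o : Option ι => o.elim 1 w) hw (by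
        intro o
        cases o with
        | none => exact Pool.Agent.H301R2.SSE.Lt_one
        | some i => exact hL i) (α := Option α) (fun o => o.elim c lam) (by
        intro o
        cases o with
        | none => exact hc
        | some i => exact hlam i) (R.image (fun v : α → ι => (Option.map v : Option α → Option ι)))
      (by
        intro u hu
        obtain ⟨v, hv, rfl⟩ := mem_image.1 hu
        refine ⟨Option.map_injective (hR v hv).1, ?_⟩
        rw [Fintype.sum_option]
        simp only [Option.elim_none, Option.elim_some, Option.map_none, Option.map_some, mul_one]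
        exact (hR v hv).2)
    rw [card_image_of_injective _ hinj, Fintype.card_option, Nat.add_sub_cancel] at h1
    refine h1.trans ?_
    calc ((Fintype.card α + 1) ^ 2 * Fintype.card α) ^ (Fintype.card α + 1) ≤
          ((n + 1) ^ 2 * n + 1) ^ (Fintype.card α + 1) := by
          refine Nat.pow_le_pow_left ?_ _
          calc (Fintype.card α + 1) ^ 2 * Fintype.card α ≤ (n + 1) ^ 2 * n :=
                Nat.mul_le_mul (Nat.pow_le_pow_left (by omega) 2) (by omega)
            _ ≤ _ := Nat.le_succ _
      _ ≤ _ := Nat.pow_le_pow_right (by omega) (by omega)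

section
variable {X : Type*} {ι : Type} [Fintype X] [DecidableEq X]

/-- the restriction of a vector to a set -/
def ind (b : X → ℂ) (B : Finset X) : X → ℂ := fun i => if i ∈ B then b i else 0

/-- `ρ` describes the coincidences among the values of `v` -/
def Kind (ρ : X → X) (v : X → ι) : Prop :=
  (∀ i i', v i = v i' ↔ ρ i = ρ i') ∧ ∀ i, v (ρ i) = v i

omit [Fintype X] [DecidableEq X] in
theorem exists_kind (v : X → ι) : ∃ ρ : X → X, Kind ρ v := by
  refine ⟨fun i => (Quotient.mk (Setoid.ker v) i).out, ?_, ?_⟩
  · intro i i'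
    constructor
    · intro h
      have h1 : Quotient.mk (Setoid.ker v) i = Quotient.mk (Setoid.ker v) i' := Quotient.sound h
      exact congrArg Quotient.out h1
    · intro h
      have h1 := Quotient.out_injective h
      exact Quotient.exact h1
  · intro i
    exact Quotient.mk_out (s := Setoid.ker v) i

/-- the classes -/
def cls (ρ : X → X) (k : X) : Finset X := univ.filter fun i => ρ i = k

theorem mem_cls (ρ : X → X) (k i : X) : i ∈ cls ρ k ↔ ρ i = k := by
  simp [cls]

open Classical in
/-- the free classes -/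
noncomputable def fr (W : Submodule ℂ (X → ℂ)) (b : X → ℂ) (ρ : X → X) : Finset X :=
  (univ.image ρ).filter fun k => ind b (cls ρ k) ∈ W

theorem kind_sum (w : ι → ℂ) (a b : X → ℂ) (ρ : X → X) (v : X → ι) (h : Kind ρ v) :
    (fun i => a i + b i * w (v i)) = a + ∑ k ∈ univ.image ρ, w (v k) • ind b (cls ρ k) := by
  funext i
  rw [Pi.add_apply, Finset.sum_apply, sum_eq_single (ρ i)]
  · rw [Pi.smul_apply, h.2 i, ind, if_pos ((mem_cls _ _ _).2 rfl), smul_eq_mul, mul_comm (b i)]
  · intro k _ hk
    rw [Pi.smul_apply, ind, if_neg, smul_zero]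
    intro hi
    exact hk ((mem_cls _ _ _).1 hi).symm
  · intro h1
    exact absurd (mem_image_of_mem _ (mem_univ _)) h1

omit [Fintype X] [DecidableEq X] in
theorem kind_idem (ρ : X → X) (v : X → ι) (h : Kind ρ v) (i : X) : ρ (ρ i) = ρ i :=
  (h.1 _ _).1 (h.2 i)

open Classical in
theorem vals [Fintype ι] (w : ι → ℂ) (hw : LinearIndependent QB (fun o : Option ι => o.elim 1 w))
    (hL : ∀ i, w i ∈ Lt) (W : Submodule ℂ (X → ℂ)) (a b : X → ℂ) (ρ : X → X) (i : X)
    (hi : ind b (cls ρ (ρ i)) ∉ W) :
    (univ.filter fun x : ι => ∃ v : X → ι, Kind ρ v ∧ (fun i => a i + b i * w (v i)) ∈ W ∧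
      v i = x).card ≤
      ((Fintype.card X + 1) ^ 2 * Fintype.card X + 1) ^ (Fintype.card X + 1) := by
  obtain ⟨φ, hφ1, hφ2⟩ := Submodule.exists_le_ker_of_notMem hi
  let lam : X → ℂ := fun k => φ (ind b (cls ρ k))
  let A := (univ.image ρ).filter fun k => lam k ≠ 0
  let R : Finset (A → ι) := univ.filter fun u => Function.Injective u ∧
    φ a + ∑ k : A, lam k * w (u k) = 0
  have hA : A.card ≤ Fintype.card X := card_le_univ A
  have hR := few_affine w hw hL (α := A) (φ a) (fun k => lam k) (fun k => (mem_filter.1 k.2).2) R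
    (fun u hu => (mem_filter.1 hu).2) (n := Fintype.card X) (by rwa [Fintype.card_coe])
  have hiA : ρ i ∈ A := mem_filter.2 ⟨mem_image_of_mem _ (mem_univ _), hφ1⟩
  have hsub : (univ.filter fun x : ι => ∃ v : X → ι, Kind ρ v ∧
      (fun i => a i + b i * w (v i)) ∈ W ∧ v i = x) ⊆ R.image (fun u => u ⟨ρ i, hiA⟩) := by
    intro x hx
    obtain ⟨v, hv, hvW, hvi⟩ := (mem_filter.1 hx).2
    refine mem_image.2 ⟨fun k => v k, mem_filter.2 ⟨mem_univ _, ?_, ?_⟩, ?_⟩
    · intro k k' hk
      have h1 : ρ k = ρ k' := (hv.1 _ _).1 hk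
      obtain ⟨j, -, hj⟩ := mem_image.1 (mem_filter.1 k.2).1
      obtain ⟨j', -, hj'⟩ := mem_image.1 (mem_filter.1 k'.2).1
      apply Subtype.ext
      rw [← hj, ← hj'] at h1 ⊢
      rw [kind_idem ρ v hv, kind_idem ρ v hv] at h1
      exact h1
    · have h1 : φ (fun i => a i + b i * w (v i)) = 0 := LinearMap.mem_ker.1 (hφ2 hvW)
      rw [kind_sum w a b ρ v hv, map_add, map_sum] at h1
      rw [← h1]
      congr 1
      rw [sum_coe_sort A (fun k => lam k * w (v k)), sum_filter]
      refine sum_congr rfl fun k _ => ?_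
      rw [map_smul, smul_eq_mul]
      split_ifs with h2
      · exact mul_comm _ _
      · have h3 : φ (ind b (cls ρ k)) = 0 := not_not.1 h2
        rw [h3, mul_zero]
    · show v (ρ i) = x
      rw [hv.2 i, hvi]
  calc _ ≤ (R.image (fun u => u ⟨ρ i, hiA⟩)).card := card_le_card hsub
    _ ≤ R.card := card_image_le
    _ ≤ _ := hR

open Classical in
theorem card_kind [Fintype ι] (w : ι → ℂ)
    (hw : LinearIndependent QB (fun o : Option ι => o.elim 1 w)) (hL : ∀ i, w i ∈ Lt)
    (W : Submodule ℂ (X → ℂ)) (a b : X → ℂ) (ρ : X → X) :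
    (univ.filter fun v : X → ι => Kind ρ v ∧ (fun i => a i + b i * w (v i)) ∈ W).card ≤
      (((Fintype.card X + 1) ^ 2 * Fintype.card X + 1) ^ (Fintype.card X + 1)) ^ Fintype.card X *
        Fintype.card ι ^ (fr W b ρ).card := by
  have key := card_le_mul_card_image_of_maps_to
    (s := univ.filter fun v : X → ι => Kind ρ v ∧ (fun i => a i + b i * w (v i)) ∈ W)
    (t := (univ : Finset (fr W b ρ → ι))) (f := fun v (k : fr W b ρ) => v k)
    (fun _ _ => mem_univ _)
    ((((Fintype.card X + 1) ^ 2 * Fintype.card X + 1) ^ (Fintype.card X + 1)) ^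
      Fintype.card X) (by
      intro g _
      let Val : X → Finset ι := fun i => if h : ρ i ∈ fr W b ρ then {g ⟨ρ i, h⟩} else
        univ.filter fun x : ι => ∃ v : X → ι, Kind ρ v ∧ (fun i => a i + b i * w (v i)) ∈ W ∧
          v i = x
      have hVal : ∀ i, (Val i).card ≤
          ((Fintype.card X + 1) ^ 2 * Fintype.card X + 1) ^ (Fintype.card X + 1) := by
        intro i
        by_cases h : ρ i ∈ fr W b ρ
        · simp only [Val, dif_pos h, card_singleton]
          exact Nat.one_le_pow _ _ (by omega)
        · simp only [Val, dif_neg h]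
          refine vals w hw hL W a b ρ i ?_
          intro h1
          exact h (mem_filter.2 ⟨mem_image_of_mem _ (mem_univ _), h1⟩)
      calc _ ≤ (Fintype.piFinset Val).card := by
            refine card_le_card ?_
            intro v hv
            rw [mem_filter, mem_filter] at hv
            obtain ⟨⟨-, hv1, hv2⟩, hv3⟩ := hv
            rw [Fintype.mem_piFinset]
            intro i
            by_cases h : ρ i ∈ fr W b ρ
            · simp only [Val, dif_pos h, mem_singleton]
              rw [← hv3]
              exact (hv1.2 i).symm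
            · simp only [Val, dif_neg h]
              exact mem_filter.2 ⟨mem_univ _, v, hv1, hv2, rfl⟩
        _ = ∏ i, (Val i).card := Fintype.card_piFinset _
        _ ≤ ∏ _i : X, ((Fintype.card X + 1) ^ 2 * Fintype.card X + 1) ^ (Fintype.card X + 1) :=
            prod_le_prod' fun i _ => hVal i
        _ = _ := by rw [prod_const, card_univ])
  rw [card_univ, Fintype.card_fun, Fintype.card_coe] at key
  exact key

/-- the constant -/
def KC (n : ℕ) : ℕ := n ^ n * (((n + 1) ^ 2 * n + 1) ^ (n + 1)) ^ n

theorem KC_pos (n : ℕ) : 0 < KC n := by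
  unfold KC
  rcases Nat.eq_zero_or_pos n with h | h
  · subst h
    norm_num
  · positivity

open Classical in
theorem card_col [Fintype ι] (hN : 0 < Fintype.card ι) (w : ι → ℂ)
    (hw : LinearIndependent QB (fun o : Option ι => o.elim 1 w))
    (hL : ∀ i, w i ∈ Lt) (W : Submodule ℂ (X → ℂ)) (a b : X → ℂ) (z : ℕ)
    (hz : ∀ v : X → ι, (fun i => a i + b i * w (v i)) ∈ W → ∀ ρ, Kind ρ v →
      (fr W b ρ).card ≤ z) :
    (univ.filter fun v : X → ι => (fun i => a i + b i * w (v i)) ∈ W).card ≤
      KC (Fintype.card X) * Fintype.card ι ^ z := by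
  calc _ ≤ (univ.biUnion fun ρ : X → X => univ.filter fun v : X → ι => Kind ρ v ∧
          (fun i => a i + b i * w (v i)) ∈ W).card := by
        refine card_le_card ?_
        intro v hv
        obtain ⟨ρ, hρ⟩ := exists_kind v
        exact mem_biUnion.2 ⟨ρ, mem_univ _, mem_filter.2 ⟨mem_univ _, hρ, (mem_filter.1 hv).2⟩⟩
    _ ≤ ∑ ρ : X → X, (univ.filter fun v : X → ι => Kind ρ v ∧
          (fun i => a i + b i * w (v i)) ∈ W).card := card_biUnion_le
    _ ≤ ∑ _ρ : X → X, (((Fintype.card X + 1) ^ 2 * Fintype.card X + 1) ^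
          (Fintype.card X + 1)) ^ Fintype.card X * Fintype.card ι ^ z := by
        refine sum_le_sum fun ρ _ => ?_
        rcases Finset.eq_empty_or_nonempty
          (univ.filter fun v : X → ι => Kind ρ v ∧ (fun i => a i + b i * w (v i)) ∈ W) with
          he | ⟨v, hv⟩
        · rw [he, card_empty]
          exact Nat.zero_le _
        · refine (card_kind w hw hL W a b ρ).trans (Nat.mul_le_mul_left _ ?_)
          have hv := (mem_filter.1 hv).2
          exact Nat.pow_le_pow_right hN (hz v hv.2 ρ hv.1)
    _ = _ := by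
        rw [sum_const, card_univ, Fintype.card_fun, smul_eq_mul, KC]
        ring

end

end Pool.Agent.K9h27.RB
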