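import Pool.Agent.K9h27.RB.Types

/-!
# The number of matrices of logarithms near a given matrix: distinct rows
-/

set_option autoImplicit false

namespace Pool.Agent.K9h27.RB

open Module Finset
open Pool.Agent.H301R2.SSE (QB mem_QB Lt)

section
variable {X Y : Type*} {ι : Type} [Fintype X] [DecidableEq X] [Fintype Y] [DecidableEq Y]

omit [Fintype Y] [DecidableEq Y] in
/-- few free classes for the matrices with many distinct rows -/
theorem fr_lt (A : X → Y → ℂ) (w : ι → ℂ) (f : X → Y → ι) (r : ℕ)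
    (hr : finrank ℂ (csp A (fun _ _ => 1) w f) ≤ r)
    (hf : r < (Set.range (fun i j => A i j + 1 * w (f i j)) \ {0}).ncard) (ρ : X → X)
    (hρ : ∀ i, ρ (ρ i) = ρ i) : (fr (csp A (fun _ _ => 1) w f) (fun _ => 1) ρ).card ≤ r - 1 := by
  classical
  by_contra hcon
  set W := csp A (fun _ _ => 1) w f with hW
  have hli := fr_indep W (fun _ => 1) (fun _ => one_ne_zero) ρ hρ
  have h1 := finrank_span_eq_card hli
  rw [Fintype.card_coe] at h1
  have hle : Submodule.span ℂ (Set.range (fun k : fr W (fun _ => 1) ρ =>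
      ind (fun _ => 1) (cls ρ (k : X)))) ≤ W := by
    rw [Submodule.span_le]
    rintro _ ⟨k, rfl⟩
    exact (mem_filter.1 k.2).2
  have h2 := Submodule.finrank_mono hle
  have heq : Submodule.span ℂ (Set.range (fun k : fr W (fun _ => 1) ρ =>
      ind (fun _ => 1) (cls ρ (k : X)))) = W :=
    Submodule.eq_of_le_of_finrank_le hle (by omega)
  have hcol : ∀ j, col A (fun _ _ => 1) w f j ∈
      Submodule.span ℂ (Set.range (fun k : fr W (fun _ => 1) ρ =>
        ind (fun _ => 1) (cls ρ (k : X)))) := by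
    intro j
    rw [heq]
    exact Submodule.subset_span ⟨j, rfl⟩
  -- equal rows
  have hrow : ∀ i i', ρ i = ρ i' →
      (fun j => A i j + 1 * w (f i j)) = fun j => A i' j + 1 * w (f i' j) := by
    intro i i' hii
    funext j
    have h3 : Submodule.span ℂ (Set.range (fun k : fr W (fun _ => 1) ρ =>
        ind (fun _ => 1) (cls ρ (k : X)))) ≤
        LinearMap.ker ((LinearMap.proj i : (X → ℂ) →ₗ[ℂ] ℂ) -
          (LinearMap.proj i' : (X → ℂ) →ₗ[ℂ] ℂ)) := by
      rw [Submodule.span_le]
      rintro _ ⟨k, rfl⟩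
      rw [SetLike.mem_coe, LinearMap.mem_ker, LinearMap.sub_apply, LinearMap.proj_apply,
        LinearMap.proj_apply, sub_eq_zero]
      show ind (fun _ => 1) (cls ρ (k : X)) i = ind (fun _ => 1) (cls ρ (k : X)) i'
      unfold ind
      by_cases h4 : ρ i = (k : X)
      · rw [if_pos ((mem_cls _ _ _).2 h4), if_pos ((mem_cls _ _ _).2 (hii ▸ h4))]
      · rw [if_neg (fun h => h4 ((mem_cls _ _ _).1 h)),
          if_neg (fun h => h4 (hii.trans ((mem_cls _ _ _).1 h)))]
    have h4 := h3 (hcol j)
    rw [LinearMap.mem_ker, LinearMap.sub_apply, LinearMap.proj_apply, LinearMap.proj_apply,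
      sub_eq_zero] at h4
    exact h4
  -- the rows outside the free classes vanish
  have hzero : ∀ i, ρ i ∉ fr W (fun _ => 1) ρ → (fun j => A i j + 1 * w (f i j)) = 0 := by
    intro i hi
    funext j
    have h3 : Submodule.span ℂ (Set.range (fun k : fr W (fun _ => 1) ρ =>
        ind (fun _ => 1) (cls ρ (k : X)))) ≤
        LinearMap.ker (LinearMap.proj i : (X → ℂ) →ₗ[ℂ] ℂ) := by
      rw [Submodule.span_le]
      rintro _ ⟨k, rfl⟩
      rw [SetLike.mem_coe, LinearMap.mem_ker, LinearMap.proj_apply]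
      show ind (fun _ => 1) (cls ρ (k : X)) i = 0
      rw [ind, if_neg]
      intro h
      rw [mem_cls] at h
      exact hi (h ▸ k.2)
    have h4 := h3 (hcol j)
    rw [LinearMap.mem_ker, LinearMap.proj_apply] at h4
    exact h4
  have h5 : (Set.range (fun i j => A i j + 1 * w (f i j)) \ {0}).ncard ≤
      (fr W (fun _ => 1) ρ).card := by
    have h6 : Set.range (fun i j => A i j + 1 * w (f i j)) \ {0} ⊆
        (fun i j => A i j + 1 * w (f i j)) '' ((fr W (fun _ => 1) ρ : Finset X) : Set X) := by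
      rintro _ ⟨⟨i, rfl⟩, hi⟩
      have h7 : ρ i ∈ fr W (fun _ => 1) ρ := by
        by_contra h
        exact hi (hzero i h)
      exact ⟨ρ i, by exact_mod_cast h7, hrow _ _ (hρ i)⟩
    refine (Set.ncard_le_ncard h6 (Set.toFinite _)).trans ?_
    refine (Set.ncard_image_le (Set.toFinite _)).trans ?_
    rw [Set.ncard_coe_finset]
  omega

/-- **The number of matrices of rank at most `r` with more than `r` distinct nonzero rows.** -/
theorem card_rank_rows [Fintype ι] [DecidableEq ι] (hN : 0 < Fintype.card ι) (A : X → Y → ℂ)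
    (w : ι → ℂ) (hw : LinearIndependent QB (fun o : Option ι => o.elim 1 w))
    (hL : ∀ i, w i ∈ Lt) (r : ℕ) (hr1 : 1 ≤ r)
    (hr : r ≤ Fintype.card X) (hXY : Fintype.card X < Fintype.card Y)
    (R : Finset (X → Y → ι))
    (hR : ∀ f ∈ R, finrank ℂ (csp A (fun _ _ => 1) w f) ≤ r ∧
      r < (Set.range (fun i j => A i j + 1 * w (f i j)) \ {0}).ncard) :
    R.card ≤ 2 ^ (Fintype.card Y * 2 ^ Fintype.card X + Fintype.card Y) *
      KC (Fintype.card X) ^ Fintype.card Y *
      Fintype.card ι ^ ((r - 1) * (Fintype.card Y - 1) + Fintype.card X) := by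
  classical
  let B : X → Y → ℂ := fun _ _ => 1
  let T : Finset (Finset (Y × Finset X) × Finset Y) := univ.filter fun p => p.2.card ≤ r
  have hsub : R ⊆ T.biUnion fun p => R.filter fun f =>
      TT A B w p.1 p.2 (min (r - p.2.card) (r - 1)) f := by
    intro f hf
    obtain ⟨N, J, hJ, hT⟩ := exists_TT A B (fun _ _ => one_ne_zero) w f r (hR f hf).1
    refine mem_biUnion.2 ⟨(N, J), mem_filter.2 ⟨mem_univ _, hJ⟩, mem_filter.2 ⟨hf, hT.1, ?_⟩⟩
    intro j v hv ρ hρ
    exact le_min (hT.2 j v hv ρ hρ)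
      (fr_lt A w f r (hR f hf).1 (hR f hf).2 ρ (kind_idem ρ v hρ))
  calc R.card ≤ (T.biUnion fun p => R.filter fun f =>
          TT A B w p.1 p.2 (min (r - p.2.card) (r - 1)) f).card := card_le_card hsub
    _ ≤ ∑ p ∈ T, (R.filter fun f => TT A B w p.1 p.2 (min (r - p.2.card) (r - 1)) f).card :=
        card_biUnion_le
    _ ≤ ∑ _p ∈ T, KC (Fintype.card X) ^ Fintype.card Y *
        Fintype.card ι ^ ((r - 1) * (Fintype.card Y - 1) + Fintype.card X) := by
        refine sum_le_sum fun p hp => ?_
        have hp' : p.2.card ≤ r := (mem_filter.1 hp).2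
        refine (card_TT hN A B w hw hL p.1 p.2 _ _
          fun f hf => (mem_filter.1 hf).2).trans ?_
        refine Nat.mul_le_mul_left _ (Nat.pow_le_pow_right hN ?_)
        rcases Nat.eq_zero_or_pos p.2.card with h1 | h1
        · rw [h1, Nat.mul_zero, Nat.zero_add, Nat.sub_zero, Nat.sub_zero,
            min_eq_right (Nat.sub_le _ _)]
          obtain ⟨q, hq⟩ : ∃ q, r = q + 1 := ⟨r - 1, by omega⟩
          obtain ⟨b, hb⟩ : ∃ b, Fintype.card Y = b + 1 := ⟨Fintype.card Y - 1, by omega⟩
          rw [hb, hq, Nat.add_sub_cancel, Nat.add_sub_cancel]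
          nlinarith
        · obtain ⟨s, hs⟩ : ∃ s, p.2.card = s + 1 := ⟨p.2.card - 1, by omega⟩
          obtain ⟨q, hq⟩ : ∃ q, r = s + 1 + q := ⟨r - (s + 1), by omega⟩
          obtain ⟨b, hb⟩ : ∃ b, Fintype.card Y = Fintype.card X + 1 + b :=
            ⟨Fintype.card Y - (Fintype.card X + 1), by omega⟩
          have hsY : s + 1 ≤ Fintype.card Y := hs ▸ card_le_univ p.2
          have e1 : r - p.2.card = q := by omega
          have e2 : r - 1 = s + q := by omega
          have e3 : Fintype.card Y - 1 = Fintype.card X + b := by omega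
          rw [e1, e2, e3, hs, min_eq_left (by omega)]
          obtain ⟨c, hc⟩ : ∃ c, Fintype.card X + b = s + c := ⟨Fintype.card X + b - s, by omega⟩
          have e4 : Fintype.card Y - (s + 1) = c := by omega
          rw [e4, hc]
          nlinarith
    _ = T.card * _ := by rw [sum_const, smul_eq_mul]
    _ ≤ (2 ^ (Fintype.card Y * 2 ^ Fintype.card X + Fintype.card Y)) * _ := by
        refine Nat.mul_le_mul_right _ ?_
        calc T.card ≤ (univ : Finset (Finset (Y × Finset X) × Finset Y)).card :=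
              card_filter_le _ _
          _ = _ := by
            rw [card_univ, Fintype.card_prod, Fintype.card_finset, Fintype.card_finset,
              Fintype.card_prod, Fintype.card_finset, ← pow_add]
    _ = _ := by ring

end

end Pool.Agent.K9h27.RB
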