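import Pool.Agent.K9h27.RB.Col

/-!
# The number of matrices of logarithms near a given matrix: the types
-/

set_option autoImplicit false

namespace Pool.Agent.K9h27.RB

open Module Finset
open Pool.Agent.H301R2.SSE (QB mem_QB Lt)

section
variable {X Y : Type*} {ι : Type} [Fintype X] [DecidableEq X] [Fintype Y] [DecidableEq Y]

/-- the columns -/
def col (A B : X → Y → ℂ) (w : ι → ℂ) (f : X → Y → ι) (j : Y) : X → ℂ :=
  fun i => A i j + B i j * w (f i j)

/-- the column space -/
def csp (A B : X → Y → ℂ) (w : ι → ℂ) (f : X → Y → ι) : Submodule ℂ (X → ℂ) :=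
  Submodule.span ℂ (Set.range (col A B w f))

/-- the span of some restricted columns of `B` -/
def isp (B : X → Y → ℂ) (N : Finset (Y × Finset X)) : Submodule ℂ (X → ℂ) :=
  Submodule.span ℂ ((fun p : Y × Finset X => ind (fun i => B i p.1) p.2) ''
    (N : Set (Y × Finset X)))

/-- the matrices of type `(N, J, z)` -/
def TT (A B : X → Y → ℂ) (w : ι → ℂ) (N : Finset (Y × Finset X)) (J : Finset Y) (z : ℕ)
    (f : X → Y → ι) : Prop :=
  isp B N ⊔ Submodule.span ℂ (col A B w f '' (J : Set Y)) = csp A B w f ∧
    ∀ (j : Y) (v : X → ι), (fun i => A i j + B i j * w (v i)) ∈ csp A B w f → ∀ ρ, Kind ρ v →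
      (fr (csp A B w f) (fun i => B i j) ρ).card ≤ z

theorem card_TT [Fintype ι] [DecidableEq ι] (hN : 0 < Fintype.card ι) (A B : X → Y → ℂ)
    (w : ι → ℂ) (hw : LinearIndependent QB (fun o : Option ι => o.elim 1 w))
    (hL : ∀ i, w i ∈ Lt) (N : Finset (Y × Finset X)) (J : Finset Y)
    (z : ℕ) (R : Finset (X → Y → ι)) (hR : ∀ f ∈ R, TT A B w N J z f) :
    R.card ≤ KC (Fintype.card X) ^ Fintype.card Y *
      Fintype.card ι ^ (Fintype.card X * J.card + z * (Fintype.card Y - J.card)) := by
  classical
  have key := card_le_mul_card_image_of_maps_to (s := R) (t := (univ : Finset (J → X → ι)))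
    (f := fun f (j : J) i => f i j) (fun _ _ => mem_univ _)
    (KC (Fintype.card X) ^ Fintype.card Y * Fintype.card ι ^ (z * (Fintype.card Y - J.card))) (by
      intro g _
      rcases Finset.eq_empty_or_nonempty
        (R.filter fun a => (fun (f : X → Y → ι) (j : J) i => f i j) a = g) with he | ⟨f0, hf0⟩
      · rw [he, card_empty]
        exact Nat.zero_le _
      set F := R.filter fun a => (fun (f : X → Y → ι) (j : J) i => f i j) a = g with hF
      have hsp : ∀ f ∈ F, csp A B w f = csp A B w f0 := by
        intro f hf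
        rw [mem_filter] at hf hf0
        rw [← (hR f hf.1).1, ← (hR f0 hf0.1).1]
        congr 2
        refine Set.image_congr ?_
        intro j hj
        funext i
        have h1 := congrFun (congrFun (hf.2.trans hf0.2.symm) ⟨j, by exact_mod_cast hj⟩) i
        have h2 : f i j = f0 i j := h1
        rw [col, col, h2]
      let S : Y → Finset (X → ι) := fun j => univ.filter fun v : X → ι =>
        (fun i => A i j + B i j * w (v i)) ∈ csp A B w f0
      have hS : ∀ j, (S j).card ≤ KC (Fintype.card X) * Fintype.card ι ^ z := fun j =>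
        card_col hN w hw hL (csp A B w f0) (fun i => A i j) (fun i => B i j) z
          ((hR f0 (mem_filter.1 hf0).1).2 j)
      have hmem : ∀ f ∈ F, ∀ j, (fun i => f i j) ∈ S j := by
        intro f hf j
        refine mem_filter.2 ⟨mem_univ _, ?_⟩
        rw [← hsp f hf]
        exact Submodule.subset_span ⟨j, rfl⟩
      calc F.card = Fintype.card F := (Fintype.card_coe _).symm
        _ ≤ Fintype.card ((j : (Jᶜ : Finset Y)) → S j) := by
            refine Fintype.card_le_of_injective
              (fun (f : F) (j : (Jᶜ : Finset Y)) =>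
                (⟨fun i => (f : X → Y → ι) i j, hmem f f.2 j⟩ : S j)) ?_
            intro f f' hff
            apply Subtype.ext
            funext i j
            by_cases hj : j ∈ J
            · have h1 := (mem_filter.1 f.2).2.trans (mem_filter.1 f'.2).2.symm
              exact congrFun (congrFun h1 ⟨j, hj⟩) i
            · have h1 := congrArg Subtype.val (congrFun hff ⟨j, mem_compl.2 hj⟩)
              exact congrFun h1 i
        _ = ∏ j : (Jᶜ : Finset Y), (S j).card := by
            rw [Fintype.card_pi]
            exact prod_congr rfl fun j _ => Fintype.card_coe _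
        _ ≤ ∏ _j : (Jᶜ : Finset Y), (KC (Fintype.card X) * Fintype.card ι ^ z) :=
            prod_le_prod' fun j _ => hS j
        _ = (KC (Fintype.card X) * Fintype.card ι ^ z) ^ (Fintype.card Y - J.card) := by
            rw [prod_const, card_univ, Fintype.card_coe, card_compl]
        _ = KC (Fintype.card X) ^ (Fintype.card Y - J.card) *
            Fintype.card ι ^ (z * (Fintype.card Y - J.card)) := by
            rw [mul_pow, ← pow_mul]
        _ ≤ _ := Nat.mul_le_mul_right _ (Nat.pow_le_pow_right (KC_pos _) (Nat.sub_le _ _)))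
  rw [card_univ, Fintype.card_fun, Fintype.card_fun, Fintype.card_coe, ← pow_mul] at key
  refine key.trans (le_of_eq ?_)
  rw [pow_add]
  ring

omit [Fintype Y] [DecidableEq Y] in
/-- the restrictions to the classes are independent -/
theorem fr_indep (W : Submodule ℂ (X → ℂ)) (b : X → ℂ) (hb : ∀ i, b i ≠ 0) (ρ : X → X)
    (hρ : ∀ i, ρ (ρ i) = ρ i) :
    LinearIndependent ℂ (fun k : fr W b ρ => ind b (cls ρ (k : X))) := by
  classical
  rw [Fintype.linearIndependent_iff]
  intro g hg k
  have h1 := congrFun hg (k : X)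
  rw [Finset.sum_apply, sum_eq_single k] at h1
  · obtain ⟨j, -, hj⟩ := mem_image.1 (mem_filter.1 k.2).1
    have h2 : ρ (k : X) = k := by rw [← hj, hρ]
    rw [Pi.smul_apply, ind, if_pos ((mem_cls _ _ _).2 h2), smul_eq_mul] at h1
    exact (mul_eq_zero.1 h1).resolve_right (hb _)
  · intro k' _ hk'
    obtain ⟨j, -, hj⟩ := mem_image.1 (mem_filter.1 k.2).1
    have h2 : ρ (k : X) = k := by rw [← hj, hρ]
    rw [Pi.smul_apply, ind, if_neg, smul_zero]
    intro h3
    rw [mem_cls, h2] at h3
    exact hk' (Subtype.ext h3.symm)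
  · intro h
    exact absurd (mem_univ _) h

/-- there are not many free classes -/
theorem fr_le (B : X → Y → ℂ) (hB : ∀ i j, B i j ≠ 0) (N : Finset (Y × Finset X))
    (W : Submodule ℂ (X → ℂ))
    (hN : ∀ (j : Y) (C : Finset X), ind (fun i => B i j) C ∈ W → (j, C) ∈ N) (j : Y) (ρ : X → X)
    (hρ : ∀ i, ρ (ρ i) = ρ i) :
    (fr W (fun i => B i j) ρ).card ≤ finrank ℂ (isp B N) := by
  classical
  have h1 := finrank_span_eq_card (fr_indep W (fun i => B i j) (fun i => hB i j) ρ hρ)
  rw [Fintype.card_coe] at h1
  rw [← h1]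
  refine Submodule.finrank_mono (Submodule.span_mono ?_)
  rintro _ ⟨k, rfl⟩
  exact ⟨(j, cls ρ k), by exact_mod_cast hN _ _ (mem_filter.1 k.2).2, rfl⟩

/-- every matrix has a type -/
theorem exists_TT (A B : X → Y → ℂ) (hB : ∀ i j, B i j ≠ 0) (w : ι → ℂ) (f : X → Y → ι) (r : ℕ)
    (hr : finrank ℂ (csp A B w f) ≤ r) :
    ∃ (N : Finset (Y × Finset X)) (J : Finset Y), J.card ≤ r ∧ TT A B w N J (r - J.card) f := by
  classical
  let N : Finset (Y × Finset X) := univ.filter fun p => ind (fun i => B i p.1) p.2 ∈ csp A B w f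
  have hN : ∀ (j : Y) (C : Finset X), ind (fun i => B i j) C ∈ csp A B w f → (j, C) ∈ N :=
    fun j C hC => mem_filter.2 ⟨mem_univ _, hC⟩
  have hU : isp B N ≤ csp A B w f := by
    rw [isp, Submodule.span_le]
    rintro _ ⟨p, hp, rfl⟩
    exact (mem_filter.1 (by exact_mod_cast hp : p ∈ N)).2
  obtain ⟨κ, a, ha, hspan, hli⟩ :=
    exists_linearIndependent' ℂ (fun j => (isp B N).mkQ (col A B w f j))
  have : Finite κ := Finite.of_injective a ha
  have := Fintype.ofFinite κ
  let J : Finset Y := univ.image a
  have hJ : J.card = Fintype.card κ := by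
    rw [card_image_of_injective _ ha, card_univ]
  have hmap : Submodule.map (isp B N).mkQ (csp A B w f) =
      Submodule.span ℂ (Set.range ((fun j => (isp B N).mkQ (col A B w f j)) ∘ a)) := by
    rw [hspan, csp, Submodule.map_span, ← Set.range_comp]
    rfl
  have hcard : Fintype.card κ + finrank ℂ (isp B N) = finrank ℂ (csp A B w f) := by
    have h1 := finrank_span_eq_card hli
    rw [← hmap] at h1
    have h2 := LinearMap.finrank_range_add_finrank_ker
      ((isp B N).mkQ.domRestrict (csp A B w f))
    rw [LinearMap.range_domRestrict, LinearMap.ker_domRestrict, Submodule.ker_mkQ, h1] at h2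
    rw [← h2]
    congr 1
    exact (Submodule.comapSubtypeEquivOfLe hU).finrank_eq.symm
  refine ⟨N, J, by omega, ?_, ?_⟩
  · apply le_antisymm
    · refine sup_le hU (Submodule.span_mono ?_)
      rintro _ ⟨j, -, rfl⟩
      exact ⟨j, rfl⟩
    · have h1 : csp A B w f ≤ Submodule.comap (isp B N).mkQ (Submodule.map (isp B N).mkQ
          (Submodule.span ℂ (col A B w f '' (J : Set Y)))) := by
        rw [← Submodule.map_le_iff_le_comap, hmap, Submodule.span_le]
        rintro _ ⟨k, rfl⟩
        refine Submodule.mem_map_of_mem (Submodule.subset_span ⟨a k, ?_, rfl⟩)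
        exact_mod_cast mem_image_of_mem _ (mem_univ k)
      rw [Submodule.comap_map_mkQ] at h1
      exact h1
  · intro j v _ ρ hρ
    have h1 := fr_le B hB N (csp A B w f) hN j ρ (kind_idem ρ v hρ)
    omega

/-- **The number of matrices of rank at most `r`.** -/
theorem card_rank_le [Fintype ι] [DecidableEq ι] (hN : 0 < Fintype.card ι) (A B : X → Y → ℂ)
    (hB : ∀ i j, B i j ≠ 0) (w : ι → ℂ)
    (hw : LinearIndependent QB (fun o : Option ι => o.elim 1 w)) (hL : ∀ i, w i ∈ Lt) (r : ℕ)
    (R : Finset (X → Y → ι)) (hR : ∀ f ∈ R, finrank ℂ (csp A B w f) ≤ r) :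
    R.card ≤ 2 ^ (Fintype.card Y * 2 ^ Fintype.card X + Fintype.card Y) *
      KC (Fintype.card X) ^ Fintype.card Y *
      Fintype.card ι ^ (r * max (Fintype.card X) (Fintype.card Y)) := by
  classical
  let T : Finset (Finset (Y × Finset X) × Finset Y) := univ.filter fun p => p.2.card ≤ r
  have hsub : R ⊆ T.biUnion fun p => R.filter fun f => TT A B w p.1 p.2 (r - p.2.card) f := by
    intro f hf
    obtain ⟨N, J, hJ, hT⟩ := exists_TT A B hB w f r (hR f hf)
    exact mem_biUnion.2 ⟨(N, J), mem_filter.2 ⟨mem_univ _, hJ⟩, mem_filter.2 ⟨hf, hT⟩⟩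
  calc R.card ≤ (T.biUnion fun p => R.filter fun f =>
          TT A B w p.1 p.2 (r - p.2.card) f).card := card_le_card hsub
    _ ≤ ∑ p ∈ T, (R.filter fun f => TT A B w p.1 p.2 (r - p.2.card) f).card := card_biUnion_le
    _ ≤ ∑ _p ∈ T, KC (Fintype.card X) ^ Fintype.card Y *
        Fintype.card ι ^ (r * max (Fintype.card X) (Fintype.card Y)) := by
        refine sum_le_sum fun p hp => ?_
        have hp' : p.2.card ≤ r := (mem_filter.1 hp).2
        refine (card_TT hN A B w hw hL p.1 p.2 (r - p.2.card) _
          fun f hf => (mem_filter.1 hf).2).trans ?_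
        refine Nat.mul_le_mul_left _ (Nat.pow_le_pow_right hN ?_)
        calc Fintype.card X * p.2.card + (r - p.2.card) * (Fintype.card Y - p.2.card) ≤
              max (Fintype.card X) (Fintype.card Y) * p.2.card +
                (r - p.2.card) * max (Fintype.card X) (Fintype.card Y) :=
              Nat.add_le_add (Nat.mul_le_mul_right _ (le_max_left _ _))
                (Nat.mul_le_mul_left _ ((Nat.sub_le _ _).trans (le_max_right _ _)))
          _ = (p.2.card + (r - p.2.card)) * max (Fintype.card X) (Fintype.card Y) := by ring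
          _ = r * max (Fintype.card X) (Fintype.card Y) := by
              rw [Nat.add_sub_cancel' hp']
    _ = T.card * _ := by rw [sum_const, smul_eq_mul]
    _ ≤ (2 ^ (Fintype.card Y * 2 ^ Fintype.card X + Fintype.card Y)) * _ := by
        refine Nat.mul_le_mul_right _ ?_
        calc T.card ≤ (univ : Finset (Finset (Y × Finset X) × Finset Y)).card :=
              card_filter_le _ _
          _ = _ := by
            rw [card_univ, Fintype.card_prod, Fintype.card_finset, Fintype.card_finset,
              Fintype.card_prod, Fintype.card_finset, ← pow_add]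
    _ = _ := by ring

end

end Pool.Agent.K9h27.RB
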